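import Mathlib

/-! Borel-Cantelli for the sequences `α ^ b n`: a set of reals of measure at most `X ^ (1 - κ)` up to `X`
is avoided by `α ^ b n` for all large `n`, for almost all `α > 1`, if `b n / log n → ∞`. -/

set_option autoImplicit false

open Filter Topology MeasureTheory

namespace Pool.Agent.Helper341.Metric

/-- the inverse of `α ↦ α ^ b` is Lipschitz -/
lemma lip (A b : ℝ) (hA : 1 < A) (hb : 1 ≤ b) :
    LipschitzOnWith (Real.toNNReal (A ^ (1 - b))) (fun y : ℝ => y ^ (1 / b)) (Set.Ici (A ^ b)) := by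
  have hA0 : 0 < A := by linarith
  have hb0 : 0 < b := by linarith
  have key : ∀ y z : ℝ, A ^ b ≤ y → y ≤ z →
      z ^ (1 / b) - y ^ (1 / b) ≤ A ^ (1 - b) * (z - y) := by
    intro y z hy hyz
    have hAb : 0 < A ^ b := Real.rpow_pos_of_pos hA0 _
    have hy0 : 0 < y := lt_of_lt_of_le hAb hy
    have hz0 : 0 < z := lt_of_lt_of_le hy0 hyz
    set u : ℝ := y ^ (1 / b) with hu
    set v : ℝ := z ^ (1 / b) with hv
    have hu0 : 0 < u := Real.rpow_pos_of_pos hy0 _
    have hv0 : 0 < v := Real.rpow_pos_of_pos hz0 _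
    have huy : u ^ b = y := by
      rw [hu, ← Real.rpow_mul hy0.le, one_div, inv_mul_cancel₀ hb0.ne', Real.rpow_one]
    have hvz : v ^ b = z := by
      rw [hv, ← Real.rpow_mul hz0.le, one_div, inv_mul_cancel₀ hb0.ne', Real.rpow_one]
    have hAu : A ≤ u := by
      have h1 : (A ^ b) ^ (1 / b) ≤ y ^ (1 / b) :=
        Real.rpow_le_rpow hAb.le hy (by positivity)
      rwa [← Real.rpow_mul hA0.le, one_div, mul_inv_cancel₀ hb0.ne', Real.rpow_one, ← one_div] at h1
    have huv : u ≤ v := Real.rpow_le_rpow hy0.le hyz (by positivity)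
    -- Bernoulli
    have h2 : 1 + b * (v / u - 1) ≤ (1 + (v / u - 1)) ^ b := by
      apply one_add_mul_self_le_rpow_one_add _ hb
      have : 0 ≤ v / u := by positivity
      linarith
    have h3 : (1 + (v / u - 1)) ^ b = z / y := by
      rw [add_sub_cancel, Real.div_rpow hv0.le hu0.le, huy, hvz]
    rw [h3] at h2
    have h4 : y * (b * (v / u - 1)) ≤ z - y := by
      have h5 : y * (1 + b * (v / u - 1)) ≤ y * (z / y) := mul_le_mul_of_nonneg_left h2 hy0.le
      rw [mul_div_cancel₀ _ hy0.ne'] at h5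
      linarith
    have h6 : u ^ b = u ^ (b - 1) * u := by
      rw [← Real.rpow_add_one hu0.ne']; congr 1; ring
    have h7 : y * (b * (v / u - 1)) = b * u ^ (b - 1) * (v - u) := by
      rw [← huy, h6]; field_simp
    have h8 : A ^ (b - 1) ≤ u ^ (b - 1) := Real.rpow_le_rpow hA0.le hAu (by linarith)
    have h9 : A ^ (b - 1) * (v - u) ≤ z - y := by
      have h10 : A ^ (b - 1) * (v - u) ≤ b * u ^ (b - 1) * (v - u) := by
        apply mul_le_mul_of_nonneg_right _ (by linarith)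
        have h11 : 0 ≤ u ^ (b - 1) := by positivity
        nlinarith
      linarith
    have h12 : A ^ (1 - b) * A ^ (b - 1) = 1 := by
      rw [← Real.rpow_add hA0]
      simp
    calc v - u = A ^ (1 - b) * (A ^ (b - 1) * (v - u)) := by rw [← mul_assoc, h12, one_mul]
      _ ≤ A ^ (1 - b) * (z - y) := by
        apply mul_le_mul_of_nonneg_left h9
        positivity
  apply LipschitzOnWith.of_dist_le_mul
  intro y hy z hz
  rw [Real.coe_toNNReal _ (by positivity), Real.dist_eq, Real.dist_eq]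
  have hAb : 0 < A ^ b := Real.rpow_pos_of_pos hA0 _
  rcases le_total y z with h | h
  · have h1 := key y z hy h
    have h2 : y ^ (1 / b) ≤ z ^ (1 / b) :=
      Real.rpow_le_rpow (hAb.le.trans hy) h (by positivity)
    rw [abs_sub_comm, abs_sub_comm y z, abs_of_nonneg (by linarith), abs_of_nonneg (by linarith)]
    exact h1
  · have h1 := key z y hz h
    have h2 : z ^ (1 / b) ≤ y ^ (1 / b) :=
      Real.rpow_le_rpow (hAb.le.trans hz) h (by positivity)
    rw [abs_of_nonneg (by linarith), abs_of_nonneg (by linarith)]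
    exact h1

lemma preim (E : Set ℝ) (κ X₀ : ℝ)
    (hE : ∀ X : ℝ, X₀ ≤ X → volume (E ∩ Set.Icc 0 X) ≤ ENNReal.ofReal (X ^ (1 - κ)))
    (A B b : ℝ) (hA : 1 < A) (hb : 1 ≤ b) (hX : X₀ ≤ B ^ b) (hB : 0 < B) :
    volume {α : ℝ | A ≤ α ∧ α ≤ B ∧ α ^ b ∈ E} ≤
      ENNReal.ofReal (A * (B ^ (1 - κ) / A) ^ b) := by
  have hA0 : 0 < A := by linarith
  have hb0 : 0 < b := by linarith
  set F : Set ℝ := E ∩ Set.Icc (A ^ b) (B ^ b) with hF
  have hsub : {α : ℝ | A ≤ α ∧ α ≤ B ∧ α ^ b ∈ E} ⊆ (fun y : ℝ => y ^ (1 / b)) '' F := by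
    rintro α ⟨h1, h2, h3⟩
    have hα0 : 0 < α := by linarith
    refine ⟨α ^ b, ⟨h3, ?_, ?_⟩, ?_⟩
    · exact Real.rpow_le_rpow hA0.le h1 hb0.le
    · exact Real.rpow_le_rpow hα0.le h2 hb0.le
    · change (α ^ b) ^ (1 / b) = α
      rw [← Real.rpow_mul hα0.le, one_div, mul_inv_cancel₀ hb0.ne', Real.rpow_one]
  have hlip : LipschitzOnWith (Real.toNNReal (A ^ (1 - b))) (fun y : ℝ => y ^ (1 / b)) F :=
    (lip A b hA hb).mono fun y hy => hy.2.1
  have h1 := hlip.hausdorffMeasure_image_le (d := 1) (by norm_num)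
  rw [MeasureTheory.hausdorffMeasure_real] at h1
  have h2 : volume F ≤ ENNReal.ofReal ((B ^ b) ^ (1 - κ)) := by
    refine (measure_mono ?_).trans (hE (B ^ b) hX)
    rintro y ⟨h3, h4, h5⟩
    refine ⟨h3, ?_, h5⟩
    exact (Real.rpow_pos_of_pos hA0 _).le.trans h4
  refine (measure_mono hsub).trans (h1.trans ?_)
  rw [ENNReal.rpow_one]
  calc ((Real.toNNReal (A ^ (1 - b)) : NNReal) : ENNReal) * volume F
      ≤ ENNReal.ofReal (A ^ (1 - b)) * ENNReal.ofReal ((B ^ b) ^ (1 - κ)) := by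
        apply mul_le_mul' le_rfl h2
    _ = ENNReal.ofReal (A * (B ^ (1 - κ) / A) ^ b) := by
        rw [← ENNReal.ofReal_mul (by positivity)]
        congr 1
        rw [Real.div_rpow (by positivity) hA0.le, ← Real.rpow_mul hB.le, ← Real.rpow_mul hB.le,
          Real.rpow_sub hA0, Real.rpow_one, mul_comm b (1 - κ)]
        field_simp

/-- Borel-Cantelli -/
theorem bc (E : Set ℝ) (κ X₀ : ℝ) (hκ : 0 < κ) (hκ1 : κ < 1)
    (hE : ∀ X : ℝ, X₀ ≤ X → volume (E ∩ Set.Icc 0 X) ≤ ENNReal.ofReal (X ^ (1 - κ)))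
    (b : ℕ → ℝ) (hb : Tendsto (fun n : ℕ => b n / Real.log n) atTop atTop) :
    ∀ᵐ α : ℝ, 1 < α → ∀ᶠ n : ℕ in atTop, α ^ b n ∉ E := by
  have hlog : Tendsto (fun n : ℕ => Real.log (n : ℝ)) atTop atTop :=
    Real.tendsto_log_atTop.comp tendsto_natCast_atTop_atTop
  have hbt : Tendsto b atTop atTop := by
    have h1 := hb.atTop_mul_atTop₀ hlog
    refine h1.congr' ?_
    filter_upwards [hlog.eventually_gt_atTop 0] with n hn
    field_simp
  -- local statement
  have hloc : ∀ A B : ℝ, 1 < A → A < B → B ^ (1 - κ) < A →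
      ∀ᵐ α : ℝ, A ≤ α → α ≤ B → ∀ᶠ n : ℕ in atTop, α ^ b n ∉ E := by
    intro A B hA hAB hBA
    have hA0 : 0 < A := by linarith
    have hB0 : 0 < B := by linarith
    set ρ : ℝ := B ^ (1 - κ) / A with hρ
    have hρ0 : 0 < ρ := by positivity
    have hρ1 : ρ < 1 := by rw [hρ, div_lt_one hA0]; exact hBA
    have hlρ : Real.log ρ < 0 := Real.log_neg hρ0 hρ1
    have hBt : Tendsto (fun n : ℕ => B ^ b n) atTop atTop :=
      (tendsto_rpow_atTop_of_base_gt_one B (by linarith)).comp hbt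
    have hev : ∀ᶠ n : ℕ in atTop, volume {α : ℝ | A ≤ α ∧ α ≤ B ∧ α ^ b n ∈ E} ≤
        ENNReal.ofReal (A * (1 / (n : ℝ) ^ 2)) := by
      filter_upwards [hbt.eventually_ge_atTop 1, hBt.eventually_ge_atTop X₀,
        hb.eventually_ge_atTop (2 / (-Real.log ρ)), hlog.eventually_gt_atTop 0,
        eventually_ge_atTop 1] with n h1 h2 h3 h4 h5
      refine (preim E κ X₀ hE A B (b n) hA h1 h2 hB0).trans ?_
      apply ENNReal.ofReal_le_ofReal
      apply mul_le_mul_of_nonneg_left _ hA0.le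
      have hn0 : (0 : ℝ) < n := by exact_mod_cast h5
      rw [← hρ, Real.rpow_def_of_pos hρ0, one_div, ← Real.exp_log (pow_pos hn0 2), ← Real.exp_neg]
      apply Real.exp_le_exp.2
      rw [Real.log_pow]
      push_cast
      rw [le_div_iff₀ h4, div_mul_eq_mul_div, div_le_iff₀ (by linarith)] at h3
      linarith
    obtain ⟨n₁, hn₁⟩ := hev.exists_forall_of_atTop
    have hsum : ∑' n : ℕ, volume {α : ℝ | A ≤ α ∧ α ≤ B ∧ α ^ b (n + n₁) ∈ E} ≠ ⊤ := by
      have h1 : Summable (fun n : ℕ => A * (1 / ((n + n₁ : ℕ) : ℝ) ^ 2)) := by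
        apply Summable.mul_left
        exact (summable_nat_add_iff n₁).2 (Real.summable_one_div_nat_pow.2 (by norm_num))
      have h2 := h1.tsum_ofReal_ne_top
      refine ne_top_of_le_ne_top h2 (ENNReal.tsum_le_tsum fun n => ?_)
      exact hn₁ (n + n₁) (by omega)
    have h3 := MeasureTheory.ae_eventually_notMem hsum
    filter_upwards [h3] with α hα h4 h5
    obtain ⟨n₂, hn₂⟩ := hα.exists_forall_of_atTop
    filter_upwards [eventually_ge_atTop (n₂ + n₁)] with n hn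
    have h6 := hn₂ (n - n₁) (by omega)
    rw [Nat.sub_add_cancel (by omega)] at h6
    intro h7
    exact h6 ⟨h4, h5, h7⟩
  -- countable cover
  have hall : ∀ᵐ α : ℝ, ∀ A B : ℚ, (1 : ℝ) < A → (A : ℝ) < B → (B : ℝ) ^ (1 - κ) < A →
      (A : ℝ) ≤ α → α ≤ B → ∀ᶠ n : ℕ in atTop, α ^ b n ∉ E := by
    rw [ae_all_iff]
    intro A
    rw [ae_all_iff]
    intro B
    by_cases h : (1 : ℝ) < A ∧ (A : ℝ) < B ∧ (B : ℝ) ^ (1 - κ) < A
    · filter_upwards [hloc A B h.1 h.2.1 h.2.2] with α hα _ _ _ h4 h5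
      exact hα h4 h5
    · exact Filter.Eventually.of_forall fun α h1 h2 h3 => absurd ⟨h1, h2, h3⟩ h
  filter_upwards [hall] with α hα hα1
  have hα0 : 0 < α := by linarith
  have h1 : α ^ (1 - κ) < α := by
    conv_rhs => rw [← Real.rpow_one α]
    exact Real.rpow_lt_rpow_of_exponent_lt hα1 (by linarith)
  obtain ⟨A, hA1, hA2⟩ := exists_rat_btwn (max_lt hα1 h1)
  have hA3 : (1 : ℝ) < A := (le_max_left _ _).trans_lt hA1
  have hA4 : α ^ (1 - κ) < A := (le_max_right _ _).trans_lt hA1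
  have hcont : ContinuousAt (fun y : ℝ => y ^ (1 - κ)) α :=
    Real.continuousAt_rpow_const _ _ (Or.inl hα0.ne')
  have h2 : ∀ᶠ y : ℝ in 𝓝 α, y ^ (1 - κ) < (A : ℝ) := hcont.eventually_lt continuousAt_const hA4
  obtain ⟨r, hr, hball⟩ := Metric.eventually_nhds_iff.1 h2
  obtain ⟨B, hB1, hB2⟩ := exists_rat_btwn (show α < α + r by linarith)
  have h3 : (B : ℝ) ^ (1 - κ) < A := by
    apply hball
    rw [Real.dist_eq, abs_of_nonneg (by linarith)]
    linarith
  exact hα A B hA3 (by linarith) h3 hA2.le hB1.le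

end Pool.Agent.Helper341.Metric
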