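import Mathlib

/-! From exceptional sets in every dyadic interval to one exceptional set. -/

set_option autoImplicit false

open Filter Topology MeasureTheory

namespace Pool.Agent.Helper341.Metric

/-- number of multiples `k x`, `k ≤ Z`, with the property `R` -/
noncomputable def cnt (R : ℝ → Prop) (x Z : ℝ) : ℕ := {k : ℕ | (k : ℝ) ≤ Z ∧ R (k * x)}.ncard

lemma cnt_mono (R : ℝ → Prop) (x : ℝ) {Z Z' : ℝ} (h : Z ≤ Z') : cnt R x Z ≤ cnt R x Z' := by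
  unfold cnt
  apply Set.ncard_le_ncard
  · intro k hk
    exact ⟨hk.1.trans h, hk.2⟩
  · refine (Set.finite_Iic ⌊Z'⌋₊).subset fun k hk => ?_
    exact Nat.le_floor hk.1

theorem glue (R : ℝ → Prop) (δ : ℝ) (hδ : 0 < δ) (hδ1 : δ < 1) (c κ Y₀ : ℝ) (hc : 0 < c)
    (hκ : 0 < κ)
    (h : ∀ Y : ℝ, Y₀ ≤ Y → ∃ E : Set ℝ, MeasurableSet E ∧ volume E ≤ ENNReal.ofReal (Y ^ (1 - κ)) ∧
        ∀ x : ℝ, Y ≤ x → x ≤ 2 * Y → x ∉ E → c * Y ^ δ ≤ (cnt R x (Y ^ δ) : ℝ)) :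
    ∃ c' κ' X₀ : ℝ, 0 < c' ∧ 0 < κ' ∧ κ' < 1 ∧ ∃ E : Set ℝ, MeasurableSet E ∧
      (∀ X : ℝ, X₀ ≤ X → volume (E ∩ Set.Icc 0 X) ≤ ENNReal.ofReal (X ^ (1 - κ'))) ∧
      ∀ x : ℝ, X₀ ≤ x → x ∉ E → c' * x ^ δ ≤ (cnt R x (x ^ δ) : ℝ) := by
  classical
  set κ₁ : ℝ := min κ (1 / 2) with hκ₁
  have hκ₁0 : 0 < κ₁ := lt_min hκ (by norm_num)
  have hκ₁1 : κ₁ ≤ 1 / 2 := min_le_right _ _
  have hκ₁κ : κ₁ ≤ κ := min_le_left _ _
  obtain ⟨j₀, hj₀⟩ := pow_unbounded_of_one_lt Y₀ (one_lt_two : (1 : ℝ) < 2)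
  have hch : ∀ j : ℕ, ∃ E : Set ℝ, MeasurableSet E ∧
      volume E ≤ ENNReal.ofReal (((2 : ℝ) ^ (1 - κ₁)) ^ j) ∧
      (j₀ ≤ j → ∀ x : ℝ, (2 : ℝ) ^ j ≤ x → x ≤ 2 * 2 ^ j → x ∉ E →
        c * ((2 : ℝ) ^ j) ^ δ ≤ (cnt R x (((2 : ℝ) ^ j) ^ δ) : ℝ)) := by
    intro j
    by_cases hj : j₀ ≤ j
    · obtain ⟨E, hE1, hE2, hE3⟩ := h (2 ^ j)
        (hj₀.le.trans (pow_le_pow_right₀ (by norm_num) hj))
      refine ⟨E, hE1, hE2.trans (ENNReal.ofReal_le_ofReal ?_), fun _ => hE3⟩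
      rw [← Real.rpow_natCast 2 j, ← Real.rpow_mul (by norm_num), ← Real.rpow_natCast _ j,
        ← Real.rpow_mul (by norm_num)]
      apply Real.rpow_le_rpow_of_exponent_le (by norm_num)
      have hj0 : (0 : ℝ) ≤ j := Nat.cast_nonneg j
      nlinarith
    · exact ⟨∅, MeasurableSet.empty, by simp, fun h => absurd h hj⟩
  choose E hE1 hE2 hE3 using hch
  set q : ℝ := (2 : ℝ) ^ (1 - κ₁) with hq
  have hq1 : 1 < q := by
    rw [hq]; exact Real.one_lt_rpow (by norm_num) (by linarith)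
  have hq43 : (4 / 3 : ℝ) ≤ q := by
    have h1 : (2 : ℝ) ^ (1 / 2 : ℝ) ≤ q := by
      rw [hq]; exact Real.rpow_le_rpow_of_exponent_le (by norm_num) (by linarith)
    refine le_trans ?_ h1
    rw [← Real.sqrt_eq_rpow]
    apply Real.le_sqrt_of_sq_le
    norm_num
  -- total set
  set F : Set ℝ := ⋃ j : ℕ, (E j ∩ Set.Ici ((2 : ℝ) ^ j)) with hF
  have hmeas : ∀ X : ℝ, 1 ≤ X → volume (F ∩ Set.Icc 0 X) ≤ ENNReal.ofReal (4 * X ^ (1 - κ₁)) := by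
    intro X hX
    obtain ⟨J, hJ⟩ : ∃ J : ℕ, J = Nat.log 2 ⌊X⌋₊ := ⟨_, rfl⟩
    have hfl : 1 ≤ ⌊X⌋₊ := Nat.le_floor (by exact_mod_cast hX)
    have hJ1 : (2 : ℝ) ^ J ≤ X := by
      have h1 : 2 ^ J ≤ ⌊X⌋₊ := by rw [hJ]; exact Nat.pow_log_le_self 2 (by omega)
      have h2 : ((2 ^ J : ℕ) : ℝ) ≤ (⌊X⌋₊ : ℝ) := by exact_mod_cast h1
      push_cast at h2
      exact h2.trans (Nat.floor_le (by linarith))
    have hJ2 : X < (2 : ℝ) ^ (J + 1) := by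
      have h1 : ⌊X⌋₊ < 2 ^ (J + 1) := by rw [hJ]; exact Nat.lt_pow_succ_log_self (by norm_num) _
      have h2 : X < ((2 ^ (J + 1) : ℕ) : ℝ) := (Nat.floor_lt (by linarith)).1 h1
      push_cast at h2
      exact h2
    have hsub : F ∩ Set.Icc 0 X ⊆ ⋃ j ∈ Finset.range (J + 1), E j := by
      rintro y ⟨hy1, hy2⟩
      rw [hF, Set.mem_iUnion] at hy1
      obtain ⟨j, hj1, hj2⟩ := hy1
      have hj3 : (2 : ℝ) ^ j ≤ y := hj2
      have h1 : (2 : ℝ) ^ j < 2 ^ (J + 1) := lt_of_le_of_lt (hj3.trans hy2.2) hJ2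
      have h2 : j < J + 1 := (pow_lt_pow_iff_right₀ (by norm_num)).1 h1
      simp only [Set.mem_iUnion, Finset.mem_range]
      exact ⟨j, h2, hj1⟩
    have hsum : ∀ n : ℕ, ∑ j ∈ Finset.range (n + 1), q ^ j ≤ 4 * q ^ n := by
      intro n
      induction n with
      | zero => simp
      | succ n ih =>
        rw [Finset.sum_range_succ]
        have h3 : 0 < q ^ n := by positivity
        have h4 : q ^ (n + 1) = q ^ n * q := pow_succ q n
        nlinarith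
    calc volume (F ∩ Set.Icc 0 X) ≤ volume (⋃ j ∈ Finset.range (J + 1), E j) := measure_mono hsub
      _ ≤ ∑ j ∈ Finset.range (J + 1), volume (E j) := measure_biUnion_finset_le _ _
      _ ≤ ∑ j ∈ Finset.range (J + 1), ENNReal.ofReal (q ^ j) :=
        Finset.sum_le_sum fun j _ => hE2 j
      _ = ENNReal.ofReal (∑ j ∈ Finset.range (J + 1), q ^ j) := by
        rw [ENNReal.ofReal_sum_of_nonneg]
        intro j _
        positivity
      _ ≤ ENNReal.ofReal (4 * X ^ (1 - κ₁)) := by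
        apply ENNReal.ofReal_le_ofReal
        refine (hsum J).trans ?_
        have h5 : q ^ J = ((2 : ℝ) ^ J) ^ (1 - κ₁) := by
          rw [hq, ← Real.rpow_natCast 2 J, ← Real.rpow_natCast _ J, ← Real.rpow_mul (by norm_num),
            ← Real.rpow_mul (by norm_num), mul_comm]
        rw [h5]
        have h6 : ((2 : ℝ) ^ J) ^ (1 - κ₁) ≤ X ^ (1 - κ₁) :=
          Real.rpow_le_rpow (by positivity) hJ1 (by linarith)
        linarith
  -- remove the constant 4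
  have hκ2 : Tendsto (fun X : ℝ => X ^ (κ₁ / 2)) atTop atTop := tendsto_rpow_atTop (by linarith)
  obtain ⟨X₁, hX₁⟩ := (hκ2.eventually_ge_atTop 4).exists_forall_of_atTop
  refine ⟨c / 2, κ₁ / 2, max (max X₁ 1) (2 ^ j₀), by positivity, by positivity, by linarith, F, ?_, ?_,
    ?_⟩
  · rw [hF]
    exact MeasurableSet.iUnion fun j => (hE1 j).inter measurableSet_Ici
  · intro X hX
    have h1 : 1 ≤ X := ((le_max_right _ _).trans (le_max_left _ _)).trans hX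
    have h2 : X₁ ≤ X := ((le_max_left _ _).trans (le_max_left _ _)).trans hX
    refine (hmeas X h1).trans (ENNReal.ofReal_le_ofReal ?_)
    have h3 : X ^ (1 - κ₁ / 2) = X ^ (κ₁ / 2) * X ^ (1 - κ₁) := by
      rw [← Real.rpow_add (by linarith)]; congr 1; ring
    rw [h3]
    exact mul_le_mul_of_nonneg_right (hX₁ X h2) (by positivity)
  · intro x hx hxF
    have h1 : 1 ≤ x := ((le_max_right _ _).trans (le_max_left _ _)).trans hx
    have h2 : (2 : ℝ) ^ j₀ ≤ x := (le_max_right _ _).trans hx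
    obtain ⟨J, hJ⟩ : ∃ J : ℕ, J = Nat.log 2 ⌊x⌋₊ := ⟨_, rfl⟩
    have hfl : 1 ≤ ⌊x⌋₊ := Nat.le_floor (by exact_mod_cast h1)
    have hJ1 : (2 : ℝ) ^ J ≤ x := by
      have h1 : 2 ^ J ≤ ⌊x⌋₊ := by rw [hJ]; exact Nat.pow_log_le_self 2 (by omega)
      have h2 : ((2 ^ J : ℕ) : ℝ) ≤ (⌊x⌋₊ : ℝ) := by exact_mod_cast h1
      push_cast at h2
      exact h2.trans (Nat.floor_le (by linarith))
    have hJ2 : x < (2 : ℝ) ^ (J + 1) := by
      have h1 : ⌊x⌋₊ < 2 ^ (J + 1) := by rw [hJ]; exact Nat.lt_pow_succ_log_self (by norm_num) _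
      have h2 : x < ((2 ^ (J + 1) : ℕ) : ℝ) := (Nat.floor_lt (by linarith)).1 h1
      push_cast at h2
      exact h2
    have hjJ : j₀ ≤ J := by
      have h3 : (2 : ℝ) ^ j₀ < 2 ^ (J + 1) := lt_of_le_of_lt h2 hJ2
      have h4 : j₀ < J + 1 := (pow_lt_pow_iff_right₀ (by norm_num)).1 h3
      omega
    have hxE : x ∉ E J := by
      intro h3
      apply hxF
      rw [hF, Set.mem_iUnion]
      exact ⟨J, h3, hJ1⟩
    have h5 := hE3 J hjJ x hJ1 (by rw [pow_succ] at hJ2; linarith) hxE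
    have h6 : ((2 : ℝ) ^ J) ^ δ ≤ x ^ δ := Real.rpow_le_rpow (by positivity) hJ1 hδ.le
    have h7 : (cnt R x (((2 : ℝ) ^ J) ^ δ) : ℝ) ≤ cnt R x (x ^ δ) := by
      exact_mod_cast cnt_mono R x h6
    have h8 : x ^ δ ≤ 2 * ((2 : ℝ) ^ J) ^ δ := by
      have h9 : x ^ δ ≤ (2 * (2 : ℝ) ^ J) ^ δ :=
        Real.rpow_le_rpow (by linarith) (by rw [pow_succ] at hJ2; linarith) hδ.le
      rw [Real.mul_rpow (by norm_num) (by positivity)] at h9
      have h10 : (2 : ℝ) ^ δ ≤ 2 := by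
        conv_rhs => rw [← Real.rpow_one 2]
        exact Real.rpow_le_rpow_of_exponent_le (by norm_num) hδ1.le
      have h11 : 0 ≤ ((2 : ℝ) ^ J) ^ δ := by positivity
      nlinarith
    nlinarith

end Pool.Agent.Helper341.Metric
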