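import Pool.Agent.Results.MP_31d0eb_nt.AllScales

/-! The integers `m` such that all real `x` between `m` and `m + 1` have the right order of magnitude of
primes in `(x, x + H]` for all `H ≥ K log x` at once have positive lower density. -/

set_option autoImplicit false

open Filter Topology MeasureTheory

namespace Pool.Agent.Helper341.Metric

/-- `π(x, H)`: the number of primes `p` with `x < p ≤ x + H` -/
noncomputable def primes (x H : ℝ) : ℕ := {p : ℕ | p.Prime ∧ x < p ∧ (p : ℝ) ≤ x + H}.ncard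

/-- `(1 - δ) H / log x ≤ π(x, H) ≤ lam H / log x` for all real `H` with `K log x ≤ H ≤ x`
simultaneously -/
def RightOrder (δ K lam x : ℝ) : Prop := ∀ H : ℝ, K * Real.log x ≤ H → H ≤ x →
  (1 - δ) * H / Real.log x ≤ primes x H ∧ (primes x H : ℝ) ≤ lam * H / Real.log x

lemma primes_finite (x H : ℝ) : {p : ℕ | p.Prime ∧ x < p ∧ (p : ℝ) ≤ x + H}.Finite := by
  refine (Set.finite_Iic ⌊x + H⌋₊).subset fun p hp => ?_
  exact Nat.le_floor hp.2.2

lemma piS_eq (n : ℕ) (H : ℝ) (hH : 0 ≤ H) : Pool.Agent.H357R2.SI.piS n H = primes n H := by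
  unfold Pool.Agent.H357R2.SI.piS primes
  rw [← Set.ncard_coe_finset]
  congr 1
  ext p
  simp only [Finset.coe_filter, Finset.mem_Ioc, Set.mem_ofPred_eq, Nat.floor_natCast]
  constructor
  · rintro ⟨⟨h1, h2⟩, h3⟩
    exact ⟨h3, by exact_mod_cast h1, (Nat.le_floor_iff (by positivity)).1 h2⟩
  · rintro ⟨h1, h2, h3⟩
    exact ⟨⟨by exact_mod_cast h2, Nat.le_floor h3⟩, h1⟩

/-- from the integer `m + 1` to the reals in `(m, m + 1)` -/
lemma transfer (δ₁ K₁ lam₁ : ℝ) (hδ₁ : 0 < δ₁) (hδ₁1 : δ₁ < 1 / 4) (hK₁ : 0 < K₁) (hlam₁ : 0 < lam₁)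
    (m : ℕ) (hm : 3 ≤ m) (hm1 : 1 / δ₁ ≤ m)
    (h : ∀ H : ℝ, K₁ * Real.log ((m + 1 : ℕ) : ℝ) ≤ H → H ≤ ((m + 1 : ℕ) : ℝ) →
      (1 - δ₁) * H / Real.log ((m + 1 : ℕ) : ℝ) ≤ Pool.Agent.H357R2.SI.piS ((m + 1 : ℕ) : ℝ) H ∧
      (Pool.Agent.H357R2.SI.piS ((m + 1 : ℕ) : ℝ) H : ℝ) ≤
        lam₁ * H / Real.log ((m + 1 : ℕ) : ℝ))
    (x : ℝ) (hx1 : (m : ℝ) < x) (hx2 : x < m + 1) :
    RightOrder (4 * δ₁) (2 * K₁ + 1 + 1 / δ₁) (lam₁ + 1) x := by
  intro H hH1 hH2
  have hm3 : (3 : ℝ) ≤ m := by exact_mod_cast hm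
  have hx0 : 0 < x := by linarith
  have hlogx : 1 ≤ Real.log x := by
    rw [Real.le_log_iff_exp_le hx0]
    have := Real.exp_one_lt_d9
    linarith
  have hlogx0 : 0 < Real.log x := by linarith
  have hδinv : 0 < 1 / δ₁ := by positivity
  have hlogm : Real.log x ≤ Real.log ((m + 1 : ℕ) : ℝ) := by
    apply Real.log_le_log hx0
    push_cast
    exact hx2.le
  have hlogm0 : 0 < Real.log ((m + 1 : ℕ) : ℝ) := by linarith
  have hlogm2 : Real.log ((m + 1 : ℕ) : ℝ) ≤ (1 + δ₁) * Real.log x := by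
    have h1 : Real.log (((m + 1 : ℕ) : ℝ) / x) ≤ ((m + 1 : ℕ) : ℝ) / x - 1 :=
      Real.log_le_sub_one_of_pos (by positivity)
    rw [Real.log_div (by positivity) hx0.ne'] at h1
    have h2 : ((m + 1 : ℕ) : ℝ) / x - 1 ≤ δ₁ := by
      rw [div_sub_one hx0.ne', div_le_iff₀ hx0]
      push_cast
      have h3 : 1 ≤ δ₁ * m := by
        rw [div_le_iff₀ hδ₁] at hm1
        linarith
      nlinarith
    nlinarith
  have hHlog : (2 * K₁ + 1 + 1 / δ₁) * Real.log x ≤ H := hH1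
  have hH4 : 1 / δ₁ + 1 ≤ H := by nlinarith
  have hHl : Real.log x ≤ H := by nlinarith
  have hH0 : 0 < H := by linarith
  constructor
  · -- lower bound
    have hb1 : K₁ * Real.log ((m + 1 : ℕ) : ℝ) ≤ H - 1 := by
      have h1 : K₁ * Real.log ((m + 1 : ℕ) : ℝ) ≤ K₁ * ((1 + δ₁) * Real.log x) :=
        mul_le_mul_of_nonneg_left hlogm2 hK₁.le
      have h2 : K₁ * ((1 + δ₁) * Real.log x) ≤ 2 * K₁ * Real.log x := by
        have h3 : 0 < K₁ * Real.log x := by positivity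
        nlinarith
      nlinarith
    have hb2 : H - 1 ≤ ((m + 1 : ℕ) : ℝ) := by push_cast; linarith
    have h1 := (h (H - 1) hb1 hb2).1
    rw [piS_eq _ _ (by linarith)] at h1
    have h2 : primes ((m + 1 : ℕ) : ℝ) (H - 1) ≤ primes x H := by
      unfold primes
      apply Set.ncard_le_ncard _ (primes_finite x H)
      rintro p ⟨h3, h4, h5⟩
      push_cast at h4 h5
      exact ⟨h3, by linarith, by linarith⟩
    have h3 : (primes ((m + 1 : ℕ) : ℝ) (H - 1) : ℝ) ≤ primes x H := by exact_mod_cast h2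
    refine le_trans ?_ (h1.trans h3)
    rw [div_le_div_iff₀ hlogx0 hlogm0]
    have h4 : (1 - δ₁) * H ≤ H - 1 := by
      have h5 : 1 / δ₁ ≤ H := by linarith
      rw [div_le_iff₀ hδ₁] at h5
      linarith
    calc (1 - 4 * δ₁) * H * Real.log ((m + 1 : ℕ) : ℝ)
        ≤ (1 - 4 * δ₁) * H * ((1 + δ₁) * Real.log x) := by
          apply mul_le_mul_of_nonneg_left hlogm2
          have : 0 ≤ 1 - 4 * δ₁ := by linarith
          positivity
      _ ≤ (1 - δ₁) * ((1 - δ₁) * H) * Real.log x := by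
          have h6 : (1 - 4 * δ₁) * (1 + δ₁) ≤ (1 - δ₁) * (1 - δ₁) := by nlinarith
          have h7 : 0 < H * Real.log x := by positivity
          nlinarith
      _ ≤ (1 - δ₁) * (H - 1) * Real.log x := by
          apply mul_le_mul_of_nonneg_right _ hlogx0.le
          apply mul_le_mul_of_nonneg_left h4
          linarith
  · -- upper bound
    have hb1 : K₁ * Real.log ((m + 1 : ℕ) : ℝ) ≤ H := by
      have h1 : K₁ * Real.log ((m + 1 : ℕ) : ℝ) ≤ K₁ * ((1 + δ₁) * Real.log x) :=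
        mul_le_mul_of_nonneg_left hlogm2 hK₁.le
      have h2 : K₁ * ((1 + δ₁) * Real.log x) ≤ 2 * K₁ * Real.log x := by
        have h3 : 0 < K₁ * Real.log x := by positivity
        nlinarith
      nlinarith
    have hb2 : H ≤ ((m + 1 : ℕ) : ℝ) := by push_cast; linarith
    have h1 := (h H hb1 hb2).2
    rw [piS_eq _ _ (by linarith)] at h1
    have h2 : primes x H ≤ primes ((m + 1 : ℕ) : ℝ) H + 1 := by
      unfold primes
      refine (Set.ncard_le_ncard (t := insert (m + 1)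
        {p : ℕ | p.Prime ∧ ((m + 1 : ℕ) : ℝ) < p ∧ (p : ℝ) ≤ ((m + 1 : ℕ) : ℝ) + H}) ?_
        ((primes_finite _ H).insert _)).trans (Set.ncard_insert_le _ _)
      rintro p ⟨h3, h4, h5⟩
      rcases Nat.lt_or_ge (m + 1) p with h6 | h6
      · right
        refine ⟨h3, by exact_mod_cast h6, ?_⟩
        push_cast
        linarith
      · left
        have h7 : (m : ℝ) < p := by linarith
        have h8 : m < p := by exact_mod_cast h7
        omega
    have h3 : (primes x H : ℝ) ≤ primes ((m + 1 : ℕ) : ℝ) H + 1 := by exact_mod_cast h2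
    refine h3.trans ?_
    have h4 : lam₁ * H / Real.log ((m + 1 : ℕ) : ℝ) ≤ lam₁ * H / Real.log x :=
      div_le_div_of_nonneg_left (by positivity) hlogx0 hlogm
    have h5 : 1 ≤ H / Real.log x := by rwa [le_div_iff₀ hlogx0, one_mul]
    have h6 : (lam₁ + 1) * H / Real.log x = lam₁ * H / Real.log x + H / Real.log x := by ring
    rw [h6]
    linarith

open Classical in
/-- positive lower density of the good integers -/
lemma dens (δ : ℝ) (hδ0 : 0 < δ) (hδ1 : δ < 1) : ∃ K lam c : ℝ, 0 < K ∧ 0 < lam ∧ 0 < c ∧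
    ∃ S : Set ℕ, (∀ m ∈ S, ∀ x : ℝ, (m : ℝ) < x → x < m + 1 → RightOrder δ K lam x) ∧
    ∀ᶠ N : ℕ in atTop, c * N ≤ (((Finset.range N).filter (fun m => m ∈ S)).card : ℝ) := by
  obtain ⟨K₁, lam₁, c₁, hK₁, hlam₁, hc₁, hev⟩ :=
    Pool.Agent.Results.MP_31d0eb_nt.AllScales.result (δ / 4) (by linarith) (by linarith)
  obtain ⟨S, hS⟩ : ∃ S : Set ℕ, S = {m : ℕ | ∀ x : ℝ, (m : ℝ) < x → x < m + 1 →
    RightOrder δ (2 * K₁ + 1 + 1 / (δ / 4)) (lam₁ + 1) x} := ⟨_, rfl⟩
  refine ⟨2 * K₁ + 1 + 1 / (δ / 4), lam₁ + 1, c₁ / 2, by positivity, by positivity, by positivity,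
    S, fun m hm => by rw [hS] at hm; exact hm, ?_⟩
  obtain ⟨M₀, hM₀⟩ : ∃ M₀ : ℕ, M₀ = ⌈1 / (δ / 4)⌉₊ + 3 := ⟨_, rfl⟩
  have hM₀r : 1 / (δ / 4) ≤ (M₀ : ℝ) := by
    refine (Nat.le_ceil _).trans ?_
    exact_mod_cast (by omega : ⌈1 / (δ / 4)⌉₊ ≤ M₀)
  have hNr : Tendsto (fun N : ℕ => (N : ℝ)) atTop atTop := tendsto_natCast_atTop_atTop
  filter_upwards [hev, hNr.eventually_ge_atTop (2 * (M₀ + 1) / c₁)] with N hN hN2
  rw [div_le_iff₀ hc₁] at hN2
  set P : ℕ → Prop := fun n : ℕ => ∀ H : ℝ, K₁ * Real.log n ≤ H → H ≤ n →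
        (1 - δ / 4) * H / Real.log n ≤ Pool.Agent.H357R2.SI.piS n H ∧
        (Pool.Agent.H357R2.SI.piS n H : ℝ) ≤ lam₁ * H / Real.log n with hP
  set G := (Finset.range N).filter (fun m => m ∈ S) with hG
  have hsub : (Finset.range N).filter P ⊆ Finset.range (M₀ + 1) ∪ G.image (fun m => m + 1) := by
    intro n hn
    rw [Finset.mem_filter, Finset.mem_range] at hn
    rw [Finset.mem_union, Finset.mem_range]
    by_cases hn1 : n < M₀ + 1
    · exact Or.inl hn1
    · right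
      obtain ⟨m, rfl⟩ : ∃ m, n = m + 1 := ⟨n - 1, by omega⟩
      rw [Finset.mem_image]
      refine ⟨m, ?_, rfl⟩
      rw [hG, Finset.mem_filter, Finset.mem_range]
      refine ⟨by omega, ?_⟩
      rw [hS]
      intro x hx1 hx2
      have hmr : (M₀ : ℝ) ≤ m := by exact_mod_cast (by omega : M₀ ≤ m)
      have h1 := transfer (δ / 4) K₁ lam₁ (by linarith) (by linarith) hK₁ hlam₁ m (by omega)
        (hM₀r.trans hmr) hn.2 x hx1 hx2
      have h2 : 4 * (δ / 4) = δ := by ring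
      rwa [h2] at h1
  have h1 := (Finset.card_le_card hsub).trans (Finset.card_union_le _ _)
  rw [Finset.card_range] at h1
  have h2 : (G.image (fun m => m + 1)).card ≤ G.card := Finset.card_image_le
  have h3 : (((Finset.range N).filter P).card : ℝ) ≤ (M₀ + 1) + G.card := by
    exact_mod_cast h1.trans (Nat.add_le_add_left h2 _)
  have h4 : c₁ * N ≤ (((Finset.range N).filter P).card : ℝ) := hN
  linarith

end Pool.Agent.Helper341.Metric
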