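import Pool.Agent.Helper341.Metric.Order
import Pool.Agent.H622R3.SP.Back

/-! The integers `n` such that for all real `x` between `n` and `n + 1` there are exactly `m` primes in
`(x, x + lam log x]` and none in `(x - Lam log x, x]` have positive lower density. -/

set_option autoImplicit false

open Filter Topology MeasureTheory Pool.Agent.H357R2.SI

namespace Pool.Agent.Helper341.Metric

/-- exactly `m` primes in `(x, x + lam log x]`, no prime in `(x - Lam log x, x]` -/
def Pattern (lam Lam : ℝ) (m : ℕ) (x : ℝ) : Prop :=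
  primes x (lam * Real.log x) = m ∧
    ∀ p : ℕ, p.Prime → x - Lam * Real.log x < p → x < p

lemma transferP (lam Lam : ℝ) (m n : ℕ) (hlam : 0 < lam) (hLam : 0 ≤ Lam)
    (hn2 : 2 ≤ n) (hn1 : lam / n ≤ 1)
    (h1 : Nat.primeCounting ⌊(n : ℝ) + lam * Real.log n⌋₊ = Nat.primeCounting n + m)
    (h2 : Nat.primeCounting n = Nat.primeCounting ⌊(n : ℝ) - 2 * Lam * Real.log n⌋₊)
    (h3 : ¬ (n + 1).Prime)
    (h4 : ¬ ∃ p : ℕ, p.Prime ∧ (n : ℝ) + lam * Real.log n < p ∧ (p : ℝ) ≤ n + lam * Real.log n + 2)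
    (x : ℝ) (hx1 : (n : ℝ) < x) (hx2 : x < n + 1) : Pattern lam Lam m x := by
  have hnr : (2 : ℝ) ≤ n := by exact_mod_cast hn2
  have hx0 : 0 < x := by linarith
  have hln : 0 ≤ Real.log n := Real.log_nonneg (by linarith)
  have hlx : Real.log n ≤ Real.log x := Real.log_le_log (by linarith) hx1.le
  have hlx2 : Real.log x ≤ Real.log n + 1 / n := by
    have h5 : Real.log (x / n) ≤ x / n - 1 := Real.log_le_sub_one_of_pos (by positivity)
    rw [Real.log_div hx0.ne' (by positivity)] at h5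
    have h6 : x / n - 1 ≤ 1 / n := by
      rw [div_sub_one (by positivity)]
      apply div_le_div_of_nonneg_right _ (by positivity)
      linarith
    linarith
  have hlam1 : lam * Real.log x ≤ lam * Real.log n + 1 := by
    have h5 := mul_le_mul_of_nonneg_left hlx2 hlam.le
    have h6 : lam * (Real.log n + 1 / n) = lam * Real.log n + lam / n := by ring
    linarith
  have hlam2 : lam * Real.log n ≤ lam * Real.log x := mul_le_mul_of_nonneg_left hlx hlam.le
  have hlam0 : 0 ≤ lam * Real.log n := by positivity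
  constructor
  · -- the count
    have hset : {p : ℕ | p.Prime ∧ x < p ∧ (p : ℝ) ≤ x + lam * Real.log x} =
        (((Finset.Ioc n ⌊(n : ℝ) + lam * Real.log n⌋₊).filter Nat.Prime : Finset ℕ) : Set ℕ) := by
      ext p
      simp only [Finset.coe_filter, Finset.mem_Ioc, Set.mem_ofPred_eq]
      constructor
      · rintro ⟨h5, h6, h7⟩
        have h8 : (n : ℝ) < p := by linarith
        refine ⟨⟨by exact_mod_cast h8, ?_⟩, h5⟩
        apply Nat.le_floor
        by_contra h9
        push Not at h9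
        exact h4 ⟨p, h5, h9, by linarith⟩
      · rintro ⟨⟨h5, h6⟩, h7⟩
        have h8 : (p : ℝ) ≤ n + lam * Real.log n := (Nat.le_floor_iff (by positivity)).1 h6
        have h9 : n + 2 ≤ p := by
          rcases Nat.lt_or_ge p (n + 2) with h10 | h10
          · exfalso
            have h11 : p = n + 1 := by omega
            rw [h11] at h7
            exact h3 h7
          · exact h10
        have h10 : (n : ℝ) + 2 ≤ p := by exact_mod_cast h9
        exact ⟨h7, by linarith, by linarith⟩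
    unfold primes
    rw [hset, Set.ncard_coe_finset]
    have h5 : n ≤ ⌊(n : ℝ) + lam * Real.log n⌋₊ := Nat.le_floor (by linarith)
    have h6 := pc_add (Nat.zero_le n) h5
    rw [pc_zero, pc_zero, h1] at h6
    unfold pc at h6
    omega
  · -- no primes before
    intro p hp hp1
    by_contra hcon
    push Not at hcon
    have h5 : (p : ℝ) < n + 1 := by linarith
    have h6 : p < n + 1 := by exact_mod_cast h5
    have h7 : p ≤ n := by omega
    have hln2 : Real.log x ≤ 2 * Real.log n := by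
      have h8 : 1 / (n : ℝ) ≤ 1 / 2 := by
        apply one_div_le_one_div_of_le (by norm_num) hnr
      have h9 : 1 / 2 ≤ Real.log n := by
        have h10 : Real.log 2 ≤ Real.log n := Real.log_le_log (by norm_num) hnr
        have h11 := Real.log_two_gt_d9
        linarith
      linarith
    have h8 : (n : ℝ) - 2 * Lam * Real.log n < p := by
      have h9 := mul_le_mul_of_nonneg_left hln2 hLam
      have h10 : Lam * (2 * Real.log n) = 2 * Lam * Real.log n := by ring
      linarith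
    have h9 : ⌊(n : ℝ) - 2 * Lam * Real.log n⌋₊ < p := by
      rcases le_or_gt 0 ((n : ℝ) - 2 * Lam * Real.log n) with h10 | h10
      · exact (Nat.floor_lt h10).2 h8
      · rw [Nat.floor_of_nonpos h10.le]
        exact hp.pos
    have h10 : Nat.primeCounting ⌊(n : ℝ) - 2 * Lam * Real.log n⌋₊ < Nat.primeCounting n := by
      have h11 : pc 0 ⌊(n : ℝ) - 2 * Lam * Real.log n⌋₊ < pc 0 n := by
        unfold pc
        apply Finset.card_lt_card
        rw [Finset.ssubset_iff_of_subset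
          (Finset.filter_subset_filter _ (Finset.Ioc_subset_Ioc_right (by omega)))]
        refine ⟨p, ?_, ?_⟩
        · rw [Finset.mem_filter, Finset.mem_Ioc]
          exact ⟨⟨hp.pos, h7⟩, hp⟩
        · rw [Finset.mem_filter, Finset.mem_Ioc]
          rintro ⟨⟨_, h12⟩, _⟩
          omega
      rwa [pc_zero, pc_zero] at h11
    omega

open Classical in
/-- few integers have a prime in a short window at a given distance -/
lemma few (lam : ℝ) (hlam : 0 < lam) (N M : ℕ) (hM : (N : ℝ) + lam * Real.log N + 2 ≤ M) (hN : 2 ≤ N) :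
    (({n ∈ Finset.Ico 2 N | ∃ p : ℕ, p.Prime ∧ (n : ℝ) + lam * Real.log n < p ∧
      (p : ℝ) ≤ n + lam * Real.log n + 2} : Finset ℕ).card : ℝ) ≤ 3 * pc 0 M := by
  classical
  set g : ℕ → ℝ := fun n => (n : ℝ) + lam * Real.log n with hg
  have hgm : ∀ a b : ℕ, 1 ≤ a → a ≤ b → g a + (b - a) ≤ g b := by
    intro a b ha hab
    have h1 : (1 : ℝ) ≤ a := by exact_mod_cast ha
    have h2 : (a : ℝ) ≤ b := by exact_mod_cast hab
    have h3 : Real.log a ≤ Real.log b := Real.log_le_log (by linarith) h2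
    have h4 := mul_le_mul_of_nonneg_left h3 hlam.le
    simp only [hg]
    linarith
  set ν : ℕ → ℕ := fun p => sInf {n : ℕ | 1 ≤ n ∧ (p : ℝ) ≤ g n + 2} with hν
  set PP : Finset ℕ := (Finset.Ioc 0 M).filter Nat.Prime with hPP
  have hsub : ({n ∈ Finset.Ico 2 N | ∃ p : ℕ, p.Prime ∧ (n : ℝ) + lam * Real.log n < p ∧
      (p : ℝ) ≤ n + lam * Real.log n + 2} : Finset ℕ) ⊆
      PP.image ν ∪ (PP.image (fun p => ν p + 1) ∪ PP.image (fun p => ν p + 2)) := by
    intro n hn
    rw [Finset.mem_filter, Finset.mem_Ico] at hn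
    obtain ⟨⟨hn2, hnN⟩, p, hp, h1, h2⟩ := hn
    have h1' : g n < p := h1
    have h2' : (p : ℝ) ≤ g n + 2 := h2
    have hmem : n ∈ {n : ℕ | 1 ≤ n ∧ (p : ℝ) ≤ g n + 2} := ⟨by omega, h2'⟩
    have h3 : ν p ≤ n := Nat.sInf_le hmem
    have h4 : 1 ≤ ν p ∧ (p : ℝ) ≤ g (ν p) + 2 := Nat.sInf_mem (s := {n : ℕ | 1 ≤ n ∧
      (p : ℝ) ≤ g n + 2}) ⟨n, hmem⟩
    have h5 : n < ν p + 2 := by
      by_contra h6
      push Not at h6
      have h7 := hgm (ν p) n h4.1 h3
      have h8 : (ν p : ℝ) + 2 ≤ n := by exact_mod_cast h6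
      linarith [h4.2]
    have hpPP : p ∈ PP := by
      rw [hPP, Finset.mem_filter, Finset.mem_Ioc]
      refine ⟨⟨hp.pos, ?_⟩, hp⟩
      have h6 : g n ≤ g N := by
        have h7 := hgm n N (by omega) hnN.le
        have h8 : (n : ℝ) ≤ N := by exact_mod_cast hnN.le
        linarith
      have h7 : g N + 2 ≤ M := hM
      have h8 : (p : ℝ) ≤ M := by linarith
      exact_mod_cast h8
    rw [Finset.mem_union, Finset.mem_union, Finset.mem_image, Finset.mem_image, Finset.mem_image]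
    rcases Nat.lt_or_ge n (ν p + 1) with h6 | h6
    · exact Or.inl ⟨p, hpPP, by omega⟩
    · exact Or.inr (Or.inl ⟨p, hpPP, by omega⟩)
  have h1 := Finset.card_le_card hsub
  have h2 := h1.trans ((Finset.card_union_le _ _).trans
    (Nat.add_le_add_left (Finset.card_union_le _ _) _))
  have h3 : ∀ f : ℕ → ℕ, (PP.image f).card ≤ PP.card := fun f => Finset.card_image_le
  have h4 := h2.trans (Nat.add_le_add (h3 ν) (Nat.add_le_add (h3 (fun p => ν p + 1))
    (h3 (fun p => ν p + 2))))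
  have h5 : (({n ∈ Finset.Ico 2 N | ∃ p : ℕ, p.Prime ∧ (n : ℝ) + lam * Real.log n < p ∧
      (p : ℝ) ≤ n + lam * Real.log n + 2} : Finset ℕ).card) ≤ 3 * pc 0 M := by
    refine h4.trans (le_of_eq ?_)
    unfold pc
    rw [← hPP]
    ring
  exact_mod_cast h5

/-- the primes have density zero -/
lemma primes_density (e : ℝ) (he : 0 < e) : ∀ᶠ N : ℕ in atTop, (pc 0 N : ℝ) ≤ e * N := by
  obtain ⟨B₀, hB₀3, hB₀⟩ := Pool.Agent.H622R3.SP.pi_window (1 / 4) (by norm_num) (by norm_num)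
  have hlog : Tendsto (fun n : ℕ => Real.log (n : ℝ)) atTop atTop :=
    Real.tendsto_log_atTop.comp tendsto_natCast_atTop_atTop
  filter_upwards [eventually_ge_atTop B₀, hlog.eventually_ge_atTop (4 / e),
    hlog.eventually_gt_atTop 0] with N hN h1 h2
  have h3 := (hB₀ N hN 0 (Nat.zero_le _)).2
  push_cast at h3
  have h4 : (pc 0 N : ℝ) * Real.log N ≤ 4 * N := by
    have : (0 : ℝ) ≤ N := Nat.cast_nonneg N
    linarith
  rw [div_le_iff₀ he] at h1
  have h5 : (pc 0 N : ℝ) * Real.log N ≤ (e * N) * Real.log N := by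
    have : (0 : ℝ) ≤ N := Nat.cast_nonneg N
    nlinarith
  exact le_of_mul_le_mul_right h5 h2

open Classical in
theorem densP
    (hpois : ∀ (lam Lam : ℝ) (m : ℕ), 0 < lam → 0 ≤ Lam → ∃ c : ℝ, 0 < c ∧ ∃ N₀ : ℕ, ∀ N : ℕ,
      N₀ ≤ N → c * N ≤ ({n : ℕ | n ∈ Finset.Icc 1 N ∧
        Nat.primeCounting ⌊(n : ℝ) + lam * Real.log n⌋₊ = Nat.primeCounting n + m ∧
        Nat.primeCounting n = Nat.primeCounting ⌊(n : ℝ) - Lam * Real.log n⌋₊}.ncard : ℝ))
    (lam Lam : ℝ) (m : ℕ) (hlam : 0 < lam) (hLam : 0 ≤ Lam) : ∃ c : ℝ, 0 < c ∧ ∃ S : Set ℕ,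
      (∀ n ∈ S, ∀ x : ℝ, (n : ℝ) < x → x < n + 1 → Pattern lam Lam m x) ∧
      ∀ᶠ N : ℕ in atTop, c * N ≤ (((Finset.range N).filter (fun n => n ∈ S)).card : ℝ) := by
  obtain ⟨c₀, hc₀, N₀, hN₀⟩ := hpois lam (2 * Lam) m hlam (by linarith)
  obtain ⟨S, hS⟩ : ∃ S : Set ℕ, S = {n : ℕ | ∀ x : ℝ, (n : ℝ) < x → x < n + 1 →
    Pattern lam Lam m x} := ⟨_, rfl⟩
  refine ⟨c₀ / 4, by positivity, S, fun n hn => by rw [hS] at hn; exact hn, ?_⟩
  obtain ⟨M₀, hM₀⟩ : ∃ M₀ : ℕ, M₀ = ⌈lam⌉₊ + 2 := ⟨_, rfl⟩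
  have hM₀r : lam ≤ (M₀ : ℝ) := by
    refine (Nat.le_ceil _).trans ?_
    exact_mod_cast (by omega : ⌈lam⌉₊ ≤ M₀)
  have hNr : Tendsto (fun N : ℕ => (N : ℝ)) atTop atTop := tendsto_natCast_atTop_atTop
  have h2N : Tendsto (fun N : ℕ => 2 * N) atTop atTop := tendsto_id.const_mul_atTop' (by norm_num)
  have hlogsmall : ∀ᶠ N : ℕ in atTop, lam * Real.log N ≤ N / 2 := by
    have h := Real.isLittleO_log_id_atTop.bound (by positivity : (0 : ℝ) < 1 / (2 * lam))
    have h2 := hNr.eventually h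
    filter_upwards [h2, eventually_ge_atTop 1] with N hN hN1
    have hN1' : (1 : ℝ) ≤ N := by exact_mod_cast hN1
    rw [Real.norm_of_nonneg (Real.log_nonneg hN1'), id, Real.norm_of_nonneg (by linarith)] at hN
    have h3 := mul_le_mul_of_nonneg_left hN hlam.le
    have h4 : lam * (1 / (2 * lam) * (N : ℝ)) = N / 2 := by field_simp
    linarith
  filter_upwards [eventually_ge_atTop (N₀ + 1), eventually_ge_atTop 4, hlogsmall,
    h2N.eventually (primes_density (c₀ / 32) (by positivity)),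
    hNr.eventually_ge_atTop (8 * (M₀ + 4) / c₀)] with N hNN₀ hN4 hlog hprim hbig
  rw [div_le_iff₀ hc₀] at hbig
  push_cast at hprim
  have hN4r : (4 : ℝ) ≤ N := by exact_mod_cast hN4
  -- the sets
  set A : Set ℕ := {n : ℕ | n ∈ Finset.Icc 1 (N - 1) ∧
        Nat.primeCounting ⌊(n : ℝ) + lam * Real.log n⌋₊ = Nat.primeCounting n + m ∧
        Nat.primeCounting n = Nat.primeCounting ⌊(n : ℝ) - 2 * Lam * Real.log n⌋₊} with hA
  have hAc : c₀ * ((N - 1 : ℕ) : ℝ) ≤ (A.ncard : ℝ) := hN₀ (N - 1) (by omega)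
  set G := (Finset.range N).filter (fun n => n ∈ S) with hG
  set T : Finset ℕ := {n ∈ Finset.Ico 2 N | ∃ p : ℕ, p.Prime ∧ (n : ℝ) + lam * Real.log n < p ∧
      (p : ℝ) ≤ n + lam * Real.log n + 2} with hT
  set PP : Finset ℕ := (Finset.Ioc 0 (2 * N)).filter Nat.Prime with hPP
  have hsub : A ⊆ ((Finset.range (M₀ + 1) ∪ (PP.image (fun p => p - 1) ∪ (T ∪ G)) : Finset ℕ) :
      Set ℕ) := by
    intro n hn
    obtain ⟨hn1, hn2, hn3⟩ := hn
    rw [Finset.mem_Icc] at hn1
    rw [Finset.mem_coe, Finset.mem_union, Finset.mem_union, Finset.mem_union, Finset.mem_range]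
    by_cases h1 : n < M₀ + 1
    · exact Or.inl h1
    right
    by_cases h2 : (n + 1).Prime
    · left
      rw [Finset.mem_image]
      refine ⟨n + 1, ?_, by omega⟩
      rw [hPP, Finset.mem_filter, Finset.mem_Ioc]
      exact ⟨⟨by omega, by omega⟩, h2⟩
    right
    by_cases h3 : ∃ p : ℕ, p.Prime ∧ (n : ℝ) + lam * Real.log n < p ∧
      (p : ℝ) ≤ n + lam * Real.log n + 2
    · left
      rw [hT, Finset.mem_filter, Finset.mem_Ico]
      exact ⟨⟨by omega, by omega⟩, h3⟩
    right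
    rw [hG, Finset.mem_filter, Finset.mem_range]
    refine ⟨by omega, ?_⟩
    rw [hS]
    intro x hx1 hx2
    have hnM : (M₀ : ℝ) ≤ n := by exact_mod_cast (by omega : M₀ ≤ n)
    have hn0 : (0 : ℝ) < n := by
      have : 0 < n := by omega
      exact_mod_cast this
    exact transferP lam Lam m n hlam hLam (by omega) (by rw [div_le_one hn0]; linarith) hn2 hn3 h2 h3
      x hx1 hx2
  have h1 := Set.ncard_le_ncard hsub (Finset.finite_toSet _)
  rw [Set.ncard_coe_finset] at h1
  have h2 := h1.trans ((Finset.card_union_le _ _).trans (Nat.add_le_add_left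
    ((Finset.card_union_le _ _).trans (Nat.add_le_add_left (Finset.card_union_le _ _) _)) _))
  rw [Finset.card_range] at h2
  have h3 : (PP.image (fun p => p - 1)).card ≤ PP.card := Finset.card_image_le
  have h4 : PP.card = pc 0 (2 * N) := rfl
  have h5 : (T.card : ℝ) ≤ 3 * pc 0 (2 * N) := by
    apply few lam hlam N (2 * N) _ (by omega)
    push_cast
    linarith
  have h6 : (A.ncard : ℝ) ≤ (M₀ + 1) + (pc 0 (2 * N) + (T.card + G.card)) := by
    rw [← h4]
    exact_mod_cast h2.trans (Nat.add_le_add_left (Nat.add_le_add_right h3 _) _)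
  have h7 : ((N - 1 : ℕ) : ℝ) = N - 1 := by
    rw [Nat.cast_sub (by omega)]; simp
  rw [h7] at hAc
  have h8 : c₀ * (N - 1) ≤ (M₀ + 1) + (c₀ / 32 * (2 * N) + (3 * (c₀ / 32 * (2 * N)) + G.card)) := by
    linarith
  have h9 : c₀ ≤ c₀ * N / 4 := by nlinarith
  have hc₀0 : 0 ≤ c₀ * N := by positivity
  have h10 : c₀ / 4 * (N : ℝ) ≤ (G.card : ℝ) := by nlinarith
  exact h10

end Pool.Agent.Helper341.Metric
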